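import Pool.Agent.Y280.RF.Rec

/-! # Property (P) for rectangle-free pairs of equivalence relations -/

namespace Y280.RF

variable {E : Type*}

section Suff

variable [Finite E] {ρ : Bool → Setoid E} {f : E → E → E}

/-- all reduced steps out of the state `s` are of the first type -/
def Typ (ρ : Bool → Setoid E) (f : E → E → E) (s : E × Bool) : Prop :=
  ∀ t, Step ρ s t → f s.1 t.1 = s.1

/-- `x` and `y` are joined by a reduced walk -/
lemma exists_reach (hs : ∀ b x, ∃ y, y ≠ x ∧ ρ b x y) {x y : E}
    (h : Relation.ReflTransGen (fun u v => ∃ b, ρ b u v) x y) :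
    ∃ b c, Reach ρ (x, b) (y, c) := by
  induction h with
  | refl => exact ⟨true, true, Relation.ReflTransGen.refl⟩
  | @tail y z _ hyz ih =>
    obtain ⟨b, c, h⟩ := ih
    obtain ⟨d, hd⟩ := hyz
    by_cases hyz : y = z
    · subst hyz
      exact ⟨b, c, h⟩
    by_cases hcd : c = d
    · subst hcd
      exact ⟨b, !c, h.tail ⟨rfl, hyz, hd⟩⟩
    · -- the last step used the relation `d`
      have hcd' : c = !d := by
        cases c <;> cases d <;> simp_all
      rcases Relation.ReflTransGen.cases_tail h with h | ⟨u, hu, hstep⟩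
      · have : x = y := (congrArg Prod.fst h).symm
        subst this
        exact ⟨d, !d, Relation.ReflTransGen.single ⟨rfl, hyz, hd⟩⟩
      · obtain ⟨u, e⟩ := u
        obtain ⟨h1, h2, h3⟩ := hstep
        simp only at h1 h2 h3
        have he : e = d := by
          rw [hcd'] at h1
          cases d <;> cases e <;> simp_all
        subst he
        by_cases huz : u = z
        · subst huz
          exact ⟨b, e, hu⟩
        · exact ⟨b, !e, hu.tail ⟨rfl, huz, (ρ e).trans h3 hd⟩⟩

theorem sufficiency (hρ : NoRect ρ) (hs : ∀ b x, ∃ y, y ≠ x ∧ ρ b x y)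
    (hconn : ∀ x y, Relation.ReflTransGen (fun u v => ∃ b, ρ b u v) x y)
    (hf : ∀ b x x' y y', ρ b x x' → ρ b y y' → ρ b (f x y) (f x' y')) (hid : ∀ x, f x x = x) :
    (∀ x y, f x y = x) ∨ (∀ x y, f x y = y) := by
  classical
  -- on a walk `s → t ⇝ u`, the map is one of the projections
  have key : ∀ {s t u : E × Bool}, Step ρ s t → Reach ρ t u →
      (f s.1 t.1 = s.1 ∧ f s.1 u.1 = s.1 ∧ f t.1 s.1 = t.1 ∧ f t.1 u.1 = t.1) ∨
      (f s.1 t.1 = t.1 ∧ f s.1 u.1 = u.1 ∧ f t.1 s.1 = s.1 ∧ f t.1 u.1 = u.1) := by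
    intro s t u h1 h2
    obtain ⟨g, hg, hper, g0, g1, k, gk⟩ := exists_line hs h1 h2
    rcases line hρ hf hid hg hper with h | h
    · left
      rw [← g0, ← g1, ← gk]
      exact ⟨h 0 1, h 0 k, h 1 0, h 1 k⟩
    · right
      rw [← g0, ← g1, ← gk]
      exact ⟨h 0 1, h 0 k, h 1 0, h 1 k⟩
  -- one step of the first type out of `s` suffices
  have claimD : ∀ {s t : E × Bool}, Step ρ s t → f s.1 t.1 = s.1 → Typ ρ f s := by
    intro s t hst h1 u hsu
    obtain ⟨x', hx', hr⟩ := hs (!s.2) s.1
    have hstep : Step ρ (x', !s.2) s := ⟨by simp, hx', (ρ _).symm hr⟩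
    have k1 := key hstep (Relation.ReflTransGen.single hst)
    have k2 := key hstep (Relation.ReflTransGen.single hsu)
    have h3 : f x' s.1 = x' := by
      rcases k1 with ⟨h, _, _, _⟩ | ⟨_, _, _, h⟩
      · exact h
      · exact absurd (h1.symm.trans h) hst.2.1
    rcases k2 with ⟨_, _, _, h⟩ | ⟨h, _, _, _⟩
    · exact h
    · exact absurd (h3.symm.trans h) hx'
  have claimA : ∀ {s t : E × Bool}, Step ρ s t → Typ ρ f s → Typ ρ f t := by
    intro s t hst h u htu
    rcases key hst (Relation.ReflTransGen.single htu) with ⟨_, _, _, h1⟩ | ⟨h1, _, _, _⟩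
    · exact h1
    · exact absurd ((h t hst).symm.trans h1) hst.2.1
  -- reversing a step
  have claimC : ∀ {x y : E} {b : Bool}, x ≠ y → ρ b x y → Typ ρ f (x, b) → Typ ρ f (y, b) := by
    intro x y b hxy hr h
    have hst : Step ρ (x, b) (y, !b) := ⟨rfl, hxy, hr⟩
    have h1 := h _ hst
    have hrev : Step ρ (y, b) (x, !b) := ⟨rfl, hxy.symm, (ρ b).symm hr⟩
    rcases key hst Relation.ReflTransGen.refl with ⟨_, _, h2, _⟩ | ⟨h2, _, _, _⟩
    · exact claimD hrev h2
    · exact absurd (h1.symm.trans h2) hxy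
  have claimF : ∀ {x : E} {b : Bool}, Typ ρ f (x, b) → Typ ρ f (x, !b) := by
    intro x b h
    obtain ⟨y, hy, hr⟩ := hs b x
    exact claimA (s := (y, b)) ⟨rfl, hy, (ρ b).symm hr⟩ (claimC hy.symm hr h)
  have claimG : ∀ {x y : E}, (∃ b, ρ b x y) → (∀ b, Typ ρ f (x, b)) → ∀ b, Typ ρ f (y, b) := by
    rintro x y ⟨b, hb⟩ h
    by_cases hxy : x = y
    · rw [← hxy]
      exact h
    · have h1 := claimC hxy hb (h b)
      have h2 := claimF h1
      intro c
      cases b <;> cases c <;> first | exact h1 | exact h2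
  by_cases hT : ∃ x b, Typ ρ f (x, b)
  · left
    obtain ⟨x, b, hx⟩ := hT
    have hx' : ∀ c, Typ ρ f (x, c) := by
      intro c
      have h2 := claimF hx
      cases b <;> cases c <;> first | exact hx | exact h2
    have hall : ∀ y c, Typ ρ f (y, c) := by
      intro y
      have := hconn x y
      induction this with
      | refl => exact hx'
      | tail _ h2 ih => exact claimG h2 ih
    intro y z
    by_cases hyz : y = z
    · rw [hyz, hid]
    obtain ⟨b, c, hr⟩ := exists_reach hs (hconn y z)
    rcases Relation.ReflTransGen.cases_head hr with h | ⟨t, h1, h2⟩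
    · exact absurd (congrArg Prod.fst h) hyz
    · rcases key h1 h2 with ⟨_, h, _, _⟩ | ⟨h, _, _, _⟩
      · exact h
      · exact absurd ((hall y b t h1).symm.trans h) h1.2.1
  · right
    intro y z
    by_cases hyz : y = z
    · rw [hyz, hid]
    obtain ⟨b, c, hr⟩ := exists_reach hs (hconn y z)
    rcases Relation.ReflTransGen.cases_head hr with h | ⟨t, h1, h2⟩
    · exact absurd (congrArg Prod.fst h) hyz
    · rcases key h1 h2 with ⟨h, _, _, _⟩ | ⟨_, h, _, _⟩
      · exact absurd ⟨y, b, claimD h1 h⟩ hT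
      · exact h

end Suff

/-- property (P): the only idempotent binary maps preserving all relations of the family are the
two projections -/
def PropertyP (𝓔 : Set (Setoid E)) : Prop :=
  ∀ f : E → E → E, (∀ x, f x x = x) →
    (∀ θ ∈ 𝓔, ∀ x x' y y' : E, θ x x' → θ y y' → θ (f x y) (f x' y')) →
    (∀ x y, f x y = x) ∨ (∀ x y, f x y = y)

/-- necessary: the relations generate the total relation -/
lemma necessary_conn {𝓔 : Set (Setoid E)} (h : PropertyP 𝓔) (x y : E) :
    Relation.ReflTransGen (fun u v => ∃ θ ∈ 𝓔, θ u v) x y := by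
  classical
  by_contra hxy
  set C : E → Prop := fun z => Relation.ReflTransGen (fun u v => ∃ θ ∈ 𝓔, θ u v) x z with hC
  have hinv : ∀ θ ∈ 𝓔, ∀ u v : E, θ u v → (C u ↔ C v) := fun θ hθ u v huv =>
    ⟨fun hu => hu.tail ⟨θ, hθ, huv⟩, fun hv => hv.tail ⟨θ, hθ, θ.symm huv⟩⟩
  have hCx : C x := Relation.ReflTransGen.refl
  have hCy : ¬ C y := hxy
  have hne : x ≠ y := by
    rintro rfl
    exact hCy hCx
  rcases h (fun u v => if C u ∧ ¬ C v then v else u) (fun u => by simp) (by
    intro θ hθ u u' v v' hu hv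
    have h1 := hinv θ hθ u u' hu
    have h2 := hinv θ hθ v v' hv
    by_cases hc : C u ∧ ¬ C v
    · rw [if_pos hc, if_pos ⟨h1.1 hc.1, fun h => hc.2 (h2.2 h)⟩]
      exact hv
    · rw [if_neg hc, if_neg (fun h => hc ⟨h1.2 h.1, fun h' => h.2 (h2.1 h')⟩)]
      exact hu) with h | h
  · have := h x y
    rw [if_pos ⟨hCx, hCy⟩] at this
    exact hne this.symm
  · have := h y x
    rw [if_neg (fun h => hCy h.1)] at this
    exact hne this.symm

/-- necessary for two relations: no singleton classes -/
lemma necessary_class [Nontrivial E] {θ η : Setoid E} (h : PropertyP ({θ, η} : Set (Setoid E)))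
    (x : E) : ∃ y, y ≠ x ∧ θ x y := by
  classical
  by_contra hx
  push Not at hx
  have hx' : ∀ y, θ x y → y = x := fun y hy => by
    by_contra hne
    exact hx y hne hy
  obtain ⟨y, hy⟩ := exists_ne x
  -- some `z ≠ x` is `η`-equivalent to `x`
  obtain ⟨z, hz, hxz⟩ : ∃ z, z ≠ x ∧ η x z := by
    by_contra hno
    push Not at hno
    have := necessary_conn h x y
    have hstay : ∀ z, Relation.ReflTransGen
        (fun u v => ∃ θ' ∈ ({θ, η} : Set (Setoid E)), θ' u v) x z → z = x := by
      intro z hz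
      induction hz with
      | refl => rfl
      | @tail u v _ h2 ih =>
        subst ih
        obtain ⟨θ', hθ', huv⟩ := h2
        simp only [Set.mem_insert_iff, Set.mem_singleton_iff] at hθ'
        rcases hθ' with rfl | rfl
        · exact hx' v huv
        · by_contra hne
          exact hno v hne huv
    exact hy (hstay y this)
  rcases h (fun u v => if u = x ∧ v ≠ x then z else u) (fun u => by
      by_cases hu : u = x
      · simp [hu]
      · simp [hu]) (by
    intro θ' hθ' u u' v v' hu hv
    simp only [Set.mem_insert_iff, Set.mem_singleton_iff] at hθ'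
    rcases hθ' with rfl | rfl
    · have hux : ∀ {a b : E}, θ' a b → a = x → b = x := by
        intro a b hab ha
        subst ha
        exact hx' b hab
      by_cases hc : u = x ∧ v ≠ x
      · rw [if_pos hc, if_pos ⟨hux hu hc.1, fun h => hc.2 (hux (θ'.symm hv) h)⟩]
      · rw [if_neg hc, if_neg (fun h => hc ⟨hux (θ'.symm hu) h.1, fun h' => h.2 (hux hv h')⟩)]
        exact hu
    · have hval : ∀ a b : E, θ' a (if a = x ∧ b ≠ x then z else a) := by
        intro a b
        by_cases hc : a = x ∧ b ≠ x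
        · rw [if_pos hc, hc.1]
          exact hxz
        · rw [if_neg hc]
      exact θ'.trans (θ'.symm (hval u v)) (θ'.trans hu (hval u' v'))) with h | h
  · have := h x y
    rw [if_pos ⟨rfl, hy⟩] at this
    exact hz this
  · have := h z x
    rw [if_neg (fun h => hz h.1)] at this
    exact hz this

end Y280.RF
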