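import Pool.Agent.Y280.RF.Gen

/-! # Property (P) for families of pairwise rectangle-free equivalence relations -/

namespace Y280.RF

variable {E ι : Type*} {θ : ι → Setoid E} {f : E → E → E}

/-- **On a periodic reduced walk of flags the map is one of the two projections.** -/
theorem line2 {g : ℕ → Flag θ × Bool} (hρ : PNR θ)
    (hf : ∀ b x x' y y', θ b x x' → θ b y y' → θ b (f x y) (f x' y'))
    (hid : ∀ x, f x x = x) (hg : ∀ i, Step (rho θ) (g i) (g (i + 1)))
    (hper : ∃ n, 0 < n ∧ ∀ i, g (i + n) = g i) :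
    (∀ i j, f (g i).1.1.1 (g j).1.1.1 = (g i).1.1.1) ∨
      (∀ i j, f (g i).1.1.1 (g j).1.1.1 = (g j).1.1.1) := by
  classical
  obtain ⟨hn0, hn⟩ := Nat.find_spec hper
  have hmin : ∀ s, 0 < s → (∀ i, g (i + s) = g i) → Nat.find hper ≤ s :=
    fun s h1 h2 => Nat.find_min' hper ⟨h1, h2⟩
  set n := Nat.find hper with hndef
  have key1 : ∀ k, (g k).2 = true → (∀ i, f (g i).1.1.1 (g k).1.1.1 = (g i).1.1.1) ∨
      (∀ i, f (g k).1.1.1 (g i).1.1.1 = (g i).1.1.1) := by
    intro k hk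
    have back : ∀ i, ∃ j, g (j + k) = g i := by
      intro i
      refine ⟨i + n * k - k, ?_⟩
      have : k ≤ n * k := Nat.le_mul_of_pos_left k hn0
      rw [show i + n * k - k + k = i + n * k by omega, periodic_mul hn]
    have h := base2 (g := fun i => g (i + k)) hρ hf hid (fun i => by
        have := hg (i + k)
        rwa [show i + k + 1 = i + 1 + k by omega] at this)
      (by
        show (g (0 + k)).2 = true
        rw [Nat.zero_add, hk]) hn0
      (fun i => by
        show g (i + n + k) = g (i + k)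
        rw [show i + n + k = i + k + n by omega, hn])
      (fun s hs h => by
        apply hmin s hs
        intro i
        have h1 := h (i + n * k - k)
        have : k ≤ n * k := Nat.le_mul_of_pos_left k hn0
        beta_reduce at h1
        rw [show i + n * k - k + s + k = i + s + n * k by omega,
          show i + n * k - k + k = i + n * k by omega, periodic_mul hn, periodic_mul hn] at h1
        exact h1)
    simp only [Nat.zero_add] at h
    rcases h with h | h
    · left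
      intro i
      obtain ⟨j, hj⟩ := back i
      have := h j
      rwa [hj] at this
    · right
      intro i
      obtain ⟨j, hj⟩ := back i
      have := h j
      rwa [hj] at this
  have key : ∀ k, (∀ i, f (g i).1.1.1 (g k).1.1.1 = (g i).1.1.1) ∨
      (∀ i, f (g k).1.1.1 (g i).1.1.1 = (g i).1.1.1) := by
    intro k
    cases hk : (g k).2 with
    | true => exact key1 k hk
    | false =>
      obtain ⟨h1, _, h2⟩ := hg k
      rw [hk] at h1 h2
      have h3 : (g k).1.1.1 = (g (k + 1)).1.1.1 := h2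
      rw [h3]
      exact key1 (k + 1) h1
  by_cases hA : ∀ k i, f (g i).1.1.1 (g k).1.1.1 = (g i).1.1.1
  · left
    exact fun i j => hA j i
  · by_cases hB : ∀ k i, f (g k).1.1.1 (g i).1.1.1 = (g i).1.1.1
    · right
      exact fun i j => hB i j
    · exfalso
      push Not at hA hB
      obtain ⟨l, i, hl⟩ := hA
      obtain ⟨k, j, hk⟩ := hB
      have hBl : ∀ i, f (g l).1.1.1 (g i).1.1.1 = (g i).1.1.1 := by
        rcases key l with h | h
        · exact absurd (h i) hl
        · exact h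
      have hAk : ∀ i, f (g i).1.1.1 (g k).1.1.1 = (g i).1.1.1 := by
        rcases key k with h | h
        · exact h
        · exact absurd (h j) hk
      have e : (g l).1.1.1 = (g k).1.1.1 := by
        rw [← hAk l, hBl k]
      apply hl
      rw [e]
      exact hAk i

theorem sufficiency2 [Finite E] [Finite ι] (hρ : PNR θ)
    (h2 : ∀ x : E, ∃ i j, i ≠ j ∧ (∃ y, y ≠ x ∧ θ i x y) ∧ ∃ y, y ≠ x ∧ θ j x y)
    (hconn : ∀ x y, Relation.ReflTransGen (fun u v => ∃ i, θ i u v) x y)
    (hf : ∀ b x x' y y', θ b x x' → θ b y y' → θ b (f x y) (f x' y')) (hid : ∀ x, f x x = x) :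
    (∀ x y, f x y = x) ∨ (∀ x y, f x y = y) := by
  classical
  -- another relation through `x`
  have other : ∀ (x : E) (i : ι), ∃ j, i ≠ j ∧ ∃ y, y ≠ x ∧ θ j x y := by
    intro x i
    obtain ⟨j, k, hjk, hj, hk⟩ := h2 x
    by_cases hij : i = j
    · exact ⟨k, by rw [hij]; exact hjk, hk⟩
    · exact ⟨j, hij, hj⟩
  have hs : ∀ b (p : Flag θ), ∃ q, q ≠ p ∧ rho θ b p q := by
    rintro b ⟨⟨x, i⟩, y, hy, hxy⟩
    cases b with
    | true =>
      refine ⟨⟨(y, i), x, hy.symm, (θ i).symm hxy⟩, ?_, rfl, hxy⟩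
      intro h
      exact hy (congrArg (fun p => p.1.1) h)
    | false =>
      obtain ⟨j, hij, hj⟩ := other x i
      refine ⟨⟨(x, j), hj⟩, ?_, rfl⟩
      intro h
      exact hij (congrArg (fun p => p.1.2) h).symm
  have hconnF : ∀ p q : Flag θ, Relation.ReflTransGen (fun u v => ∃ b, rho θ b u v) p q := by
    intro p q
    have key : ∀ y, Relation.ReflTransGen (fun u v => ∃ i, θ i u v) p.1.1 y →
        ∃ w : Flag θ, w.1.1 = y ∧ Relation.ReflTransGen (fun u v => ∃ b, rho θ b u v) p w := by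
      intro y hy
      induction hy with
      | refl => exact ⟨p, rfl, Relation.ReflTransGen.refl⟩
      | @tail y z _ hyz ih =>
        obtain ⟨w, hw, hpw⟩ := ih
        obtain ⟨i, hi⟩ := hyz
        by_cases hne : z = y
        · exact ⟨w, hw.trans hne.symm, hpw⟩
        · refine ⟨⟨(z, i), y, fun h => hne h.symm, (θ i).symm hi⟩, rfl, ?_⟩
          refine (hpw.tail (b := w) (c := ⟨(y, i), z, hne, hi⟩) ⟨false, hw⟩).tail ⟨true, rfl, hi⟩
    obtain ⟨w, hw, hpw⟩ := key q.1.1 (hconn _ _)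
    exact hpw.tail ⟨false, hw⟩
  have key : ∀ {s t u : Flag θ × Bool}, Step (rho θ) s t → Reach (rho θ) t u →
      ∃ S : Set E, s.1.1.1 ∈ S ∧ t.1.1.1 ∈ S ∧ u.1.1.1 ∈ S ∧
        ((∀ p ∈ S, ∀ q ∈ S, f p q = p) ∨ (∀ p ∈ S, ∀ q ∈ S, f p q = q)) := by
    intro s t u h1 h2
    obtain ⟨g, hg, hper, g0, g1, k, gk⟩ := exists_line hs h1 h2
    refine ⟨Set.range fun i => (g i).1.1.1, ⟨0, by simp [g0]⟩, ⟨1, by simp [g1]⟩,
      ⟨k, by simp [gk]⟩, ?_⟩
    rcases line2 hρ hf hid hg hper with h | h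
    · left
      rintro _ ⟨i, rfl⟩ _ ⟨j, rfl⟩
      exact h i j
    · right
      rintro _ ⟨i, rfl⟩ _ ⟨j, rfl⟩
      exact h i j
  -- two neighbours of `x` along different relations
  have claimU : ∀ {x y z : E} {i j : ι}, i ≠ j → y ≠ x → θ i x y → z ≠ x → θ j x z →
      (f x y = x ∧ f y x = y) → (f x z = x ∧ f z x = z) := by
    intro x y z i j hij hy hxy hz hxz hN
    have st1 : Step (rho θ) ((⟨(y, i), x, hy.symm, (θ i).symm hxy⟩ : Flag θ), true)
        ((⟨(x, i), y, hy, hxy⟩ : Flag θ), false) :=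
      ⟨rfl, fun h => hy (congrArg (fun p : Flag θ => p.1.1) h), rfl, (θ i).symm hxy⟩
    have st2 : Step (rho θ) ((⟨(x, i), y, hy, hxy⟩ : Flag θ), false)
        ((⟨(x, j), z, hz, hxz⟩ : Flag θ), true) :=
      ⟨rfl, fun h => hij (congrArg (fun p : Flag θ => p.1.2) h), rfl⟩
    have st3 : Step (rho θ) ((⟨(x, j), z, hz, hxz⟩ : Flag θ), true)
        ((⟨(z, j), x, hz.symm, (θ j).symm hxz⟩ : Flag θ), false) :=
      ⟨rfl, fun h => hz (congrArg (fun p : Flag θ => p.1.1) h).symm, rfl, hxz⟩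
    obtain ⟨S, hyS, hxS, hzS, h | h⟩ := key st1
      ((Relation.ReflTransGen.single st2).tail st3)
    · exact ⟨h x hxS z hzS, h z hzS x hxS⟩
    · exfalso
      have h1 : f x y = y := h x hxS y hyS
      exact hy (h1.symm.trans hN.1)
  have claimV : ∀ {x y y' : E}, y ≠ x → (∃ i, θ i x y) → y' ≠ x → (∃ i, θ i x y') →
      (f x y = x ∧ f y x = y) → (f x y' = x ∧ f y' x = y') := by
    rintro x y y' hy ⟨i, hi⟩ hy' ⟨i', hi'⟩ hN
    by_cases hii : i = i'
    · subst hii
      obtain ⟨j, hij, z, hz, hxz⟩ := other x i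
      exact claimU hij.symm hz hxz hy' hi' (claimU hij hy hi hz hxz hN)
    · exact claimU hii hy hi hy' hi' hN
  set Q : E → Prop := fun x => ∃ y, y ≠ x ∧ (∃ i, θ i x y) ∧ f x y = x ∧ f y x = y with hQ
  have hstep : ∀ {x y : E}, (∃ i, θ i x y) → Q x → Q y := by
    rintro x y ⟨i, hi⟩ ⟨z, hz, hxz, hN⟩
    by_cases hxy : y = x
    · rw [hxy]
      exact ⟨z, hz, hxz, hN⟩
    · have := claimV hz hxz hxy ⟨i, hi⟩ hN
      exact ⟨x, fun h => hxy h.symm, ⟨i, (θ i).symm hi⟩, this.2, this.1⟩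
  have hall : ∀ x y, Q x → Q y := by
    intro x y hx
    have := hconn x y
    induction this with
    | refl => exact hx
    | tail _ h ih => exact hstep h ih
  -- the first step of a walk from `x` to `y`
  have first : ∀ x y : E, x ≠ y → ∃ x' : E, x' ≠ x ∧ (∃ i, θ i x x') ∧ ∃ S : Set E, x ∈ S ∧ x' ∈ S ∧
      y ∈ S ∧ ((∀ p ∈ S, ∀ q ∈ S, f p q = p) ∨ (∀ p ∈ S, ∀ q ∈ S, f p q = q)) := by
    intro x y hxy
    obtain ⟨i, _, _, hi, _⟩ := h2 x
    obtain ⟨j, _, _, hj, _⟩ := h2 y
    obtain ⟨b, c, hr⟩ := exists_reach hs (hconnF ⟨(x, i), hi⟩ ⟨(y, j), hj⟩)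
    have go : ∀ (p : Flag θ) (u : Flag θ × Bool), p.1.1 = x → u.1.1.1 = y →
        Reach (rho θ) (p, true) u → ∃ x' : E, x' ≠ x ∧ (∃ i, θ i x x') ∧ ∃ S : Set E, x ∈ S ∧
          x' ∈ S ∧ y ∈ S ∧ ((∀ p ∈ S, ∀ q ∈ S, f p q = p) ∨ (∀ p ∈ S, ∀ q ∈ S, f p q = q)) := by
      intro p u hp hu hpu
      rcases Relation.ReflTransGen.cases_head hpu with h | ⟨t, h1, h2⟩
      · exact absurd (hp.symm.trans ((congrArg (fun v : Flag θ × Bool => v.1.1.1) h).trans hu)) hxy
      · obtain ⟨S, a1, a2, a3, a4⟩ := key h1 h2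
        obtain ⟨_, b2, b3⟩ := h1
        have b3' : p.1.2 = t.1.1.2 ∧ θ p.1.2 p.1.1 t.1.1.1 := b3
        refine ⟨t.1.1.1, ?_, ⟨p.1.2, ?_⟩, S, ?_, a2, ?_, a4⟩
        · intro h
          exact b2 (Subtype.ext (Prod.ext (hp.trans h.symm) b3'.1))
        · rw [← hp]
          exact b3'.2
        · rw [← hp]
          exact a1
        · rw [← hu]
          exact a3
    cases b with
    | true => exact go _ _ rfl rfl hr
    | false =>
      rcases Relation.ReflTransGen.cases_head hr with h | ⟨t, h1, h2⟩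
      · exact absurd (congrArg (fun v : Flag θ × Bool => v.1.1.1) h) hxy
      · obtain ⟨t1, tb⟩ := t
        obtain ⟨b1, _, b3⟩ := h1
        have b1' : tb = true := b1
        subst b1'
        have b3' : x = t1.1.1 := b3
        exact go t1 _ b3'.symm rfl h2
  by_cases hE : ∃ x, Q x
  · left
    obtain ⟨x0, hx0⟩ := hE
    intro x y
    by_cases hxy : x = y
    · rw [hxy, hid]
    obtain ⟨x', hx', hadj, S, h1, h2, h3, h | h⟩ := first x y hxy
    · exact h x h1 y h3
    · exfalso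
      obtain ⟨z, hz, hxz, hN⟩ := hall x0 x hx0
      have := (claimV hz hxz hx' hadj hN).1
      exact hx' ((h x h1 x' h2).symm.trans this)
  · right
    intro x y
    by_cases hxy : x = y
    · rw [hxy, hid]
    obtain ⟨x', hx', hadj, S, h1, h2, h3, h | h⟩ := first x y hxy
    · exact absurd ⟨x, x', hx', hadj, h x h1 x' h2, h x' h2 x h1⟩ hE
    · exact h x h1 y h3

end Y280.RF
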