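import Pool.Agent.Y280.RF.Cls

/-! # Families of pairwise rectangle-free equivalence relations: periodic walks of flags -/

namespace Y280.RF

open List

section Grid2

variable {G : Type*} [Group G] {H V : ℕ → ℕ → G} {D : ℕ → G}

lemma shift2 (sq : ∀ a b, H a b * V (a + 1) b = V a b * H a (b + 1)) (k m : ℕ) :
    H k 0 * pr (V (k + 1)) m = pr (V k) m * H k m := by
  induction m with
  | zero => simp [pr]
  | succ m ih =>
    show H k 0 * (pr (V (k + 1)) m * V (k + 1) m) = pr (V k) m * V k m * H k (m + 1)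
    rw [← mul_assoc, ih, mul_assoc, sq, mul_assoc]

lemma diag2 (sq : ∀ a b, H a b * V (a + 1) b = V a b * H a (b + 1))
    (dg : ∀ a, D a = H a a * V (a + 1) a) (n : ℕ) :
    pr D n = pr (fun a => H a 0) n * pr (V n) n := by
  induction n with
  | zero => simp [pr]
  | succ n ih =>
    show pr D n * D n = pr (fun a => H a 0) n * H n 0 * (pr (V (n + 1)) n * V (n + 1) n)
    rw [ih, dg, mul_assoc, ← mul_assoc (pr (V n) n), ← shift2 sq]
    simp only [mul_assoc]

lemma diag2' (sq : ∀ a b, H a b * V (a + 1) b = V a b * H a (b + 1))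
    (dg : ∀ a, D a = H a a * V (a + 1) a) (n : ℕ) :
    pr D n = pr (fun a => V 0 a) n * pr (fun a => H a n) n :=
  diag2 (H := fun a b => V b a) (V := fun a b => H b a) (fun a b => (sq b a).symm)
    (fun a => by rw [dg, sq]) n

lemma pr_pair (w : ℕ → G) (n : ℕ) : pr w (2 * n) = pr (fun a => w (2 * a) * w (2 * a + 1)) n := by
  induction n with
  | zero => rfl
  | succ n ih =>
    show pr w (2 * n) * w (2 * n) * w (2 * n + 1) = _ * (w (2 * n) * w (2 * n + 1))
    rw [ih, mul_assoc]

end Grid2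

variable {E ι : Type*}

/-- the flags: an element and a relation in which its class is not a singleton -/
abbrev Flag (θ : ι → Setoid E) : Type _ := {p : E × ι // ∃ y, y ≠ p.1 ∧ θ p.2 p.1 y}

/-- flags with the same relation and equivalent elements (`true`), flags with the same element
(`false`) -/
def rho (θ : ι → Setoid E) : Bool → Setoid (Flag θ)
  | true =>
    { r := fun p q => p.1.2 = q.1.2 ∧ θ p.1.2 p.1.1 q.1.1
      iseqv :=
        { refl := fun p => ⟨rfl, (θ p.1.2).refl _⟩
          symm := fun {p q} h => ⟨h.1.symm, by rw [← h.1]; exact (θ p.1.2).symm h.2⟩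
          trans := fun {p q s} h1 h2 => ⟨h1.1.trans h2.1, by
            have h3 := h2.2
            rw [← h1.1] at h3
            exact (θ p.1.2).trans h1.2 h3⟩ } }
  | false =>
    { r := fun p q => p.1.1 = q.1.1
      iseqv := ⟨fun _ => rfl, fun h => h.symm, fun h1 h2 => h1.trans h2⟩ }

/-- the relations are pairwise without rectangles -/
def PNR (θ : ι → Setoid E) : Prop :=
  ∀ i j, i ≠ j → ∀ x y z t, θ i x y → θ j y z → θ i z t → θ j t x → x = y ∨ y = z

lemma PNR.inter {θ : ι → Setoid E} (h : PNR θ) {i j : ι} (hij : i ≠ j) {x y : E} (h1 : θ i x y)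
    (h2 : θ j x y) : x = y := by
  rcases h i j hij x y x y h1 ((θ j).symm h2) h1 ((θ j).symm h2) with h | h
  · exact h
  · exact h.symm

section Line2

variable {θ : ι → Setoid E} {f : E → E → E} {g : ℕ → Flag θ × Bool}

lemma walk_even (hg : ∀ i, Step (rho θ) (g i) (g (i + 1))) (h0 : (g 0).2 = true) (a : ℕ) :
    (g (2 * a)).1.1.1 ≠ (g (2 * a + 1)).1.1.1 ∧ (g (2 * a)).1.1.2 = (g (2 * a + 1)).1.1.2 ∧
      θ (g (2 * a)).1.1.2 (g (2 * a)).1.1.1 (g (2 * a + 1)).1.1.1 := by
  have h1 := hg (2 * a)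
  have h2 : (g (2 * a)).2 = true := by
    rw [bool_parity hg, if_pos (by omega), h0]
  obtain ⟨_, h3, h4⟩ := h1
  rw [h2] at h4
  refine ⟨fun h => h3 (Subtype.ext (Prod.ext h h4.1)), h4.1, h4.2⟩

lemma walk_odd (hg : ∀ i, Step (rho θ) (g i) (g (i + 1))) (h0 : (g 0).2 = true) (a : ℕ) :
    (g (2 * a + 1)).1.1.1 = (g (2 * a + 2)).1.1.1 ∧
      (g (2 * a + 1)).1.1.2 ≠ (g (2 * a + 2)).1.1.2 := by
  have h1 := hg (2 * a + 1)
  have h2 : (g (2 * a + 1)).2 = false := by
    rw [bool_parity hg, if_neg (by omega), h0]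
    rfl
  obtain ⟨_, h3, h4⟩ := h1
  rw [h2] at h4
  have h4' : (g (2 * a + 1)).1.1.1 = (g (2 * a + 2)).1.1.1 := h4
  exact ⟨h4', fun h => h3 (Subtype.ext (Prod.ext h4' h))⟩

lemma base2 (hρ : PNR θ) (hf : ∀ b x x' y y', θ b x x' → θ b y y' → θ b (f x y) (f x' y'))
    (hid : ∀ x, f x x = x) (hg : ∀ i, Step (rho θ) (g i) (g (i + 1))) (h0 : (g 0).2 = true)
    {n : ℕ} (hn0 : 0 < n)
    (hn : ∀ i, g (i + n) = g i) (hmin : ∀ s, 0 < s → (∀ i, g (i + s) = g i) → n ≤ s) :
    (∀ i, f (g i).1.1.1 (g 0).1.1.1 = (g i).1.1.1) ∨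
      (∀ i, f (g 0).1.1.1 (g i).1.1.1 = (g i).1.1.1) := by
  classical
  have hev := period_even hg hn
  obtain ⟨m, rfl⟩ : ∃ m, n = 2 * m := ⟨n / 2, by omega⟩
  -- coarse coordinates
  let x : ℕ → E := fun a => (g (2 * a)).1.1.1
  let r : ℕ → ι := fun a => (g (2 * a)).1.1.2
  have hx1 : ∀ a, (g (2 * a + 1)).1.1.1 = x (a + 1) := fun a => (walk_odd hg h0 a).1
  have hr1 : ∀ a, (g (2 * a + 1)).1.1.2 = r a := fun a => (walk_even hg h0 a).2.1.symm
  have hθ : ∀ a, θ (r a) (x a) (x (a + 1)) := fun a => by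
    have := (walk_even hg h0 a).2.2
    rwa [hx1] at this
  let h : ℕ → ℕ → E := fun a b => f (x a) (x b)
  let H : ℕ → ℕ → Equiv.Perm (R (E × ι)) := fun a b => σ (h a b, r a) * σ (h (a + 1) b, r a)
  let V : ℕ → ℕ → Equiv.Perm (R (E × ι)) := fun a b => σ (h a b, r b) * σ (h a (b + 1), r b)
  let D : ℕ → Equiv.Perm (R (E × ι)) := fun a => σ (x a, r a) * σ (x (a + 1), r a)
  have sq : ∀ a b, H a b * V (a + 1) b = V a b * H a (b + 1) := by
    intro a b
    by_cases hab : r a = r b
    · show σ (h a b, r a) * σ (h (a + 1) b, r a) * (σ (h (a + 1) b, r b) * σ (h (a + 1) (b + 1), r b))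
        = σ (h a b, r b) * σ (h a (b + 1), r b) * (σ (h a (b + 1), r a) * σ (h (a + 1) (b + 1), r a))
      rw [hab]
      rw [mul_assoc, ← mul_assoc (σ (h (a + 1) b, r b)), σ_sq, one_mul, mul_assoc,
        ← mul_assoc (σ (h a (b + 1), r b)) (σ (h a (b + 1), r b)), σ_sq, one_mul]
    · have k1 : θ (r a) (h a b) (h (a + 1) b) := hf _ _ _ _ _ (hθ a) ((θ _).refl _)
      have k2 : θ (r b) (h (a + 1) b) (h (a + 1) (b + 1)) := hf _ _ _ _ _ ((θ _).refl _) (hθ b)
      have k3 : θ (r a) (h (a + 1) (b + 1)) (h a (b + 1)) :=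
        hf _ _ _ _ _ ((θ _).symm (hθ a)) ((θ _).refl _)
      have k4 : θ (r b) (h a (b + 1)) (h a b) := hf _ _ _ _ _ ((θ _).refl _) ((θ _).symm (hθ b))
      show σ (h a b, r a) * σ (h (a + 1) b, r a) * (σ (h (a + 1) b, r b) * σ (h (a + 1) (b + 1), r b))
        = σ (h a b, r b) * σ (h a (b + 1), r b) * (σ (h a (b + 1), r a) * σ (h (a + 1) (b + 1), r a))
      rcases hρ _ _ hab _ _ _ _ k1 k2 k3 k4 with e | e
      · have e' : h (a + 1) (b + 1) = h a (b + 1) := by
          apply hρ.inter hab k3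
          rw [← e] at k2
          exact (θ _).symm ((θ _).trans k4 k2)
        rw [← e, e', σ_sq, σ_sq, one_mul, mul_one]
      · have e' : h a b = h a (b + 1) := by
          rw [← e] at k3
          exact hρ.inter hab ((θ _).trans k1 k3) ((θ _).symm k4)
        rw [← e, ← e', σ_sq, σ_sq, one_mul, mul_one]
  have dg : ∀ a, D a = H a a * V (a + 1) a := by
    intro a
    show σ (x a, r a) * σ (x (a + 1), r a) = σ (f (x a) (x a), r a) * σ (f (x (a + 1)) (x a), r a) *
      (σ (f (x (a + 1)) (x a), r a) * σ (f (x (a + 1)) (x (a + 1)), r a))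
    rw [hid, hid, mul_assoc, ← mul_assoc (σ (f (x (a + 1)) (x a), r a)), σ_sq, one_mul]
  set n := 2 * m with hnm
  have hgx : ∀ i, (g (i + n)).1.1.1 = (g i).1.1.1 := fun i => by rw [hn]
  have hgp : ∀ i, (g (i + n)).1.1 = (g i).1.1 := fun i => by rw [hn]
  have hxm : ∀ a, x (a + m) = x a := fun a => by
    show (g (2 * (a + m))).1.1.1 = _
    rw [show 2 * (a + m) = 2 * a + n by omega, hn]
  have hx0m : x m = x 0 := by
    have := hxm 0
    rwa [Nat.zero_add] at this
  set cw := word (fun i => (g i).1.1) n with hc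
  set wa := word (fun i => (f (g i).1.1.1 (x 0), (g i).1.1.2)) n with hwa
  set wb := word (fun i => (f (x 0) (g i).1.1.1, (g i).1.1.2)) n with hwb
  have hcr : Rd cw := by
    apply word_rd
    intro i h
    exact (hg i).2.1 (Subtype.ext h)
  have hPc : P cw = pr D m := by
    rw [hc, P_word, hnm, pr_pair]
    apply pr_congr
    intro a
    show σ ((g (2 * a)).1.1) * σ ((g (2 * a + 1)).1.1) = σ (x a, r a) * σ (x (a + 1), r a)
    rw [show (g (2 * a + 1)).1.1 = (x (a + 1), r a) from Prod.ext (hx1 a) (hr1 a)]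
  have hPa : P wa = pr (fun a => H a 0) m := by
    rw [hwa, P_word, hnm, pr_pair]
    apply pr_congr
    intro a
    show σ (f (x a) (x 0), r a) * σ (f (g (2 * a + 1)).1.1.1 (x 0), (g (2 * a + 1)).1.1.2) =
      σ (f (x a) (x 0), r a) * σ (f (x (a + 1)) (x 0), r a)
    rw [hx1, hr1]
  have hPb : P wb = pr (fun a => V 0 a) m := by
    rw [hwb, P_word, hnm, pr_pair]
    apply pr_congr
    intro a
    show σ (f (x 0) (x a), r a) * σ (f (x 0) (g (2 * a + 1)).1.1.1, (g (2 * a + 1)).1.1.2) =
      σ (f (x 0) (x a), r a) * σ (f (x 0) (x (a + 1)), r a)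
    rw [hx1, hr1]
  have e1 : P wa * P wb = P cw := by
    rw [hPc, hPa, hPb, diag2 sq dg m]
    congr 1
    apply pr_congr
    intro b
    show σ (f (x 0) (x b), r b) * σ (f (x 0) (x (b + 1)), r b) =
      σ (f (x m) (x b), r b) * σ (f (x m) (x (b + 1)), r b)
    rw [hx0m]
  have e2 : P wb * P wa = P cw := by
    rw [hPc, hPa, hPb, diag2' sq dg m]
    congr 1
    apply pr_congr
    intro b
    show σ (f (x b) (x 0), r b) * σ (f (x (b + 1)) (x 0), r b) =
      σ (f (x b) (x m), r b) * σ (f (x (b + 1)) (x m), r b)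
    rw [hx0m]
  have hla := P_length wa e0
  have hlb := P_length wb e0
  have hca : cw.length = n := by rw [hc, word_length]
  have hwal : wa.length = n := by rw [hwa, word_length]
  have hwbl : wb.length = n := by rw [hwb, word_length]
  have he0 : (e0 : R (E × ι)).1.length = 0 := rfl
  rw [he0] at hla hlb
  obtain ⟨r1, r2⟩ := commuting (a := (P wa e0).1) (b := (P wb e0).1) (P wa e0).2 (P wb e0).2 hcr
    (by
      intro h
      rw [List.getLast_eq_getElem, List.head_eq_getElem, word_get, word_get]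
      have h1 := (hg (n - 1)).2.1
      rw [show n - 1 + 1 = 0 + n by omega, hn 0] at h1
      rw [hca]
      exact fun h2 => h1 (Subtype.ext h2))
    (by rw [P_red, P_red, e1]) (by rw [P_red, P_red, e2]) (by omega) (by omega)
  set a := (P wa e0).1 with ha
  set b := (P wb e0).1 with hb
  have hlen : a.length + b.length = n := by
    rw [← hca, r1, List.length_append]
  have hrot : cw.rotate a.length = cw := by
    conv_lhs => rw [r1]
    rw [List.rotate_append_length_eq, ← r2]
  have hxs : ∀ i, (g (i + a.length)).1.1 = (g i).1.1 := by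
    have key : ∀ k, k < n → (g (k + a.length)).1.1 = (g k).1.1 := by
      intro k hk
      have hk' : k < cw.length := by omega
      have h1 : (cw.rotate a.length)[k]'(by rw [List.length_rotate]; exact hk') = cw[k] := by
        congr 1
      rw [List.getElem_rotate, word_get, word_get] at h1
      have h2 := periodic_mod (u := fun i => (g i).1.1) hgp (k + a.length)
      rw [hca] at h1
      rw [← h2, h1]
    intro i
    have h1 := key (i % n) (Nat.mod_lt _ hn0)
    have h2 := periodic_mod (u := fun i => (g i).1.1) hgp i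
    have h3 := periodic_mod (u := fun i => (g i).1.1) hgp (i % n + a.length)
    have h4 := periodic_mod (u := fun i => (g i).1.1) hgp (i + a.length)
    rw [Nat.mod_add_mod] at h3
    rw [← h4, h3, h1, h2]
  have hpar : a.length % 2 = 0 := by omega
  have hst : ∀ i, g (i + a.length) = g i := by
    intro i
    apply Prod.ext (Subtype.ext (hxs i))
    rw [bool_parity hg, bool_parity hg i]
    rcases Nat.mod_two_eq_zero_or_one i with h | h
    · rw [if_pos h, if_pos (by omega)]
    · rw [if_neg (by omega), if_neg (by omega)]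
  rcases Nat.eq_zero_or_pos a.length with h0' | h0'
  · right
    have ha0 : a = [] := List.eq_nil_of_length_eq_zero h0'
    have hbl : b.length = wb.length := by omega
    have hbw : b = wb := P_full hbl
    rw [ha0, List.nil_append, hbw] at r1
    have key : ∀ k, k < n → f (g 0).1.1.1 (g k).1.1.1 = (g k).1.1.1 := by
      intro k hk
      have h1 : cw[k]'(by omega) = wb[k]'(by omega) := by
        congr 1
      rw [word_get, word_get] at h1
      exact (congrArg Prod.fst h1).symm
    intro i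
    have h2 := periodic_mod (u := fun i => (g i).1.1.1) hgx i
    rw [← h2]
    exact key _ (Nat.mod_lt _ hn0)
  · left
    have h1 := hmin _ h0' hst
    have hal : a.length = wa.length := by omega
    have hb0 : b = [] := List.eq_nil_of_length_eq_zero (by omega)
    have haw : a = wa := P_full hal
    rw [hb0, List.append_nil, haw] at r1
    have key : ∀ k, k < n → f (g k).1.1.1 (g 0).1.1.1 = (g k).1.1.1 := by
      intro k hk
      have h1 : cw[k]'(by omega) = wa[k]'(by omega) := by
        congr 1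
      rw [word_get, word_get] at h1
      exact (congrArg Prod.fst h1).symm
    intro i
    have h2 := periodic_mod (u := fun i => (g i).1.1.1) hgx i
    rw [← h2]
    exact key _ (Nat.mod_lt _ hn0)

end Line2

end Y280.RF
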