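import Pool.Agent.Y280.RF.Red

/-! # Idempotent maps on periodic reduced walks of a rectangle-free pair of equivalence relations -/

namespace Y280.RF

open List

variable {E : Type*}

/-- one step of a reduced walk: the state is an element and the relation to be used next -/
def Step (ρ : Bool → Setoid E) (s t : E × Bool) : Prop :=
  t.2 = !s.2 ∧ s.1 ≠ t.1 ∧ ρ s.2 s.1 t.1

/-- no rectangles -/
def NoRect (ρ : Bool → Setoid E) : Prop :=
  ∀ b x y z t, ρ b x y → ρ (!b) y z → ρ b z t → ρ (!b) t x → x = y ∨ y = z

lemma NoRect.inter {ρ : Bool → Setoid E} (h : NoRect ρ) {b : Bool} {x y : E} (h1 : ρ b x y)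
    (h2 : ρ (!b) x y) : x = y := by
  rcases h b x y x y h1 ((ρ (!b)).symm h2) h1 ((ρ (!b)).symm h2) with h | h
  · exact h
  · exact h.symm

section Line

variable {ρ : Bool → Setoid E} {f : E → E → E} {g : ℕ → E × Bool}

lemma bool_parity (hg : ∀ i, Step ρ (g i) (g (i + 1))) (i : ℕ) :
    (g i).2 = if i % 2 = 0 then (g 0).2 else !(g 0).2 := by
  induction i with
  | zero => simp
  | succ i ih =>
    rw [(hg i).1, ih]
    rcases Nat.mod_two_eq_zero_or_one i with h | h
    · rw [if_pos h, if_neg (by omega)]
    · rw [if_neg (by omega), if_pos (by omega), Bool.not_not]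

lemma bool_ne (hg : ∀ i, Step ρ (g i) (g (i + 1))) {i j : ℕ} (hij : (i + j) % 2 = 1) :
    (g j).2 = !(g i).2 := by
  have ei := bool_parity hg i
  have ej := bool_parity hg j
  rcases Nat.mod_two_eq_zero_or_one i with h | h
  · rw [if_pos h] at ei
    rw [if_neg (by omega)] at ej
    rw [ei, ej]
  · rw [if_neg (by omega)] at ei
    rw [if_pos (by omega)] at ej
    rw [ei, ej, Bool.not_not]

lemma period_even (hg : ∀ i, Step ρ (g i) (g (i + 1))) {n : ℕ} (hn : ∀ i, g (i + n) = g i) :
    n % 2 = 0 := by
  by_contra h
  have h1 := bool_ne hg (i := 0) (j := n) (by omega)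
  have h2 := hn 0
  rw [Nat.zero_add] at h2
  rw [h2] at h1
  cases h3 : (g 0).2 <;> simp [h3] at h1

variable [DecidableEq E]

/-- the values of `f` on the walk, as involutions -/
def hh (f : E → E → E) (g : ℕ → E × Bool) (i j : ℕ) : Equiv.Perm (R E) := σ (f (g i).1 (g j).1)

lemma face (hρ : NoRect ρ) (hf : ∀ b x x' y y', ρ b x x' → ρ b y y' → ρ b (f x y) (f x' y'))
    (hg : ∀ i, Step ρ (g i) (g (i + 1))) (i j : ℕ) (hij : (i + j) % 2 = 1) :
    hh f g i j * hh f g i (j + 1) = hh f g (i + 1) j * hh f g (i + 1) (j + 1) ∧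
    hh f g i j * hh f g (i + 1) j = hh f g i (j + 1) * hh f g (i + 1) (j + 1) := by
  have hb := bool_ne hg hij
  set β := (g i).2 with hβ
  have k1 : ρ β (f (g i).1 (g j).1) (f (g (i + 1)).1 (g j).1) :=
    hf _ _ _ _ _ (hg i).2.2 ((ρ _).refl _)
  have k2 : ρ (!β) (f (g (i + 1)).1 (g j).1) (f (g (i + 1)).1 (g (j + 1)).1) := by
    apply hf _ _ _ _ _ ((ρ _).refl _)
    rw [← hb]
    exact (hg j).2.2
  have k3 : ρ β (f (g (i + 1)).1 (g (j + 1)).1) (f (g i).1 (g (j + 1)).1) :=
    hf _ _ _ _ _ ((ρ _).symm (hg i).2.2) ((ρ _).refl _)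
  have k4 : ρ (!β) (f (g i).1 (g (j + 1)).1) (f (g i).1 (g j).1) := by
    apply hf _ _ _ _ _ ((ρ _).refl _)
    rw [← hb]
    exact (ρ _).symm (hg j).2.2
  unfold hh
  rcases hρ β _ _ _ _ k1 k2 k3 k4 with h | h
  · have h' : f (g (i + 1)).1 (g (j + 1)).1 = f (g i).1 (g (j + 1)).1 := by
      apply hρ.inter k3
      rw [← h] at k2
      exact (ρ _).symm ((ρ _).trans k4 k2)
    rw [h, h']
    exact ⟨rfl, by rw [σ_sq, σ_sq]⟩
  · have h' : f (g i).1 (g j).1 = f (g i).1 (g (j + 1)).1 := by
      rw [← h] at k3
      exact hρ.inter ((ρ _).trans k1 k3) ((ρ _).symm k4)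
    rw [h, h']
    exact ⟨by rw [σ_sq, σ_sq], rfl⟩

/-- the word of the first `n` letters -/
def word (u : ℕ → E) (n : ℕ) : List E := (List.range n).map u

@[simp] lemma word_length (u : ℕ → E) (n : ℕ) : (word u n).length = n := by simp [word]

lemma word_get (u : ℕ → E) (n : ℕ) {i : ℕ} (hi : i < (word u n).length) : (word u n)[i] = u i := by
  simp [word]

lemma P_word (u : ℕ → E) (n : ℕ) : P (word u n) = pr (fun i => σ (u i)) n := by
  induction n with
  | zero => rfl
  | succ n ih =>
    show P (word u (n + 1)) = pr (fun i => σ (u i)) n * σ (u n)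
    rw [← ih]
    unfold word
    rw [List.range_succ, List.map_append, P_append]
    simp [P]

lemma word_rd {u : ℕ → E} (hu : ∀ i, u i ≠ u (i + 1)) (n : ℕ) : Rd (word u n) := by
  unfold Rd
  rw [List.isChain_iff_getElem]
  intro i hi
  rw [word_get, word_get]
  exact hu i

lemma pr_congr {G : Type*} [Group G] {u v : ℕ → G} (h : ∀ i, u i = v i) (n : ℕ) :
    pr u n = pr v n := by
  rw [funext h]

lemma periodic_mod {α : Type*} {u : ℕ → α} {n : ℕ} (hu : ∀ i, u (i + n) = u i) (i : ℕ) :
    u (i % n) = u i := by
  have : ∀ k j, u (j + n * k) = u j := by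
    intro k
    induction k with
    | zero => intro j; simp
    | succ k ih =>
      intro j
      rw [Nat.mul_succ, ← Nat.add_assoc, hu, ih]
  conv_rhs => rw [← Nat.mod_add_div i n]
  rw [this]

lemma periodic_mul {α : Type*} {u : ℕ → α} {n : ℕ} (hu : ∀ i, u (i + n) = u i) (k j : ℕ) :
    u (j + n * k) = u j := by
  induction k generalizing j with
  | zero => simp
  | succ k ih => rw [Nat.mul_succ, ← Nat.add_assoc, hu, ih]

lemma base (hρ : NoRect ρ) (hf : ∀ b x x' y y', ρ b x x' → ρ b y y' → ρ b (f x y) (f x' y'))
    (hid : ∀ x, f x x = x) (hg : ∀ i, Step ρ (g i) (g (i + 1))) {n : ℕ} (hn0 : 0 < n)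
    (hn : ∀ i, g (i + n) = g i) (hmin : ∀ s, 0 < s → (∀ i, g (i + s) = g i) → n ≤ s) :
    (∀ i, f (g i).1 (g 0).1 = (g i).1) ∨ (∀ i, f (g 0).1 (g i).1 = (g i).1) := by
  have hev := period_even hg hn
  obtain ⟨m, rfl⟩ : ∃ m, n = 2 * m := ⟨n / 2, by omega⟩
  set n := 2 * m with hnm
  have hx : ∀ i, (g (i + n)).1 = (g i).1 := fun i => by rw [hn]
  set cw := word (fun i => (g i).1) n with hc
  set wa := word (fun i => f (g i).1 (g 0).1) n with hwa
  set wb := word (fun i => f (g 0).1 (g i).1) n with hwb
  have hcr : Rd cw := word_rd (fun i => (hg i).2.1) n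
  have hPc : P cw = pr (fun i => hh f g i i) n := by
    rw [hc, P_word]
    apply pr_congr
    intro i
    unfold hh
    rw [hid]
  have hPa : P wa = pr (fun i => hh f g i 0) n := by rw [hwa, P_word]; rfl
  have hPb : P wb = pr (fun i => hh f g 0 i) n := by rw [hwb, P_word]; rfl
  have hsq : ∀ i j, hh f g i j * hh f g i j = 1 := fun i j => σ_sq _
  have e1 : P wa * P wb = P cw := by
    rw [hPc, hPa, hPb, diag_eq hsq (fun i j hij => (face hρ hf hg i j hij).1) m]
    congr 1
    apply pr_congr
    intro i
    unfold hh
    have := hx 0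
    rw [Nat.zero_add] at this
    rw [this]
  have e2 : P wb * P wa = P cw := by
    rw [hPc, hPa, hPb]
    have h3 := diag_eq (h := fun i j => hh f g j i) (fun i j => hsq j i)
      (fun i j hij => (face hρ hf hg j i (by omega)).2) m
    refine Eq.trans ?_ h3.symm
    congr 1
    apply pr_congr
    intro i
    show hh f g i 0 = hh f g i n
    unfold hh
    have := hx 0
    rw [Nat.zero_add] at this
    rw [this]
  have hla := P_length wa e0
  have hlb := P_length wb e0
  have hca : cw.length = n := by rw [hc, word_length]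
  have hwal : wa.length = n := by rw [hwa, word_length]
  have hwbl : wb.length = n := by rw [hwb, word_length]
  have he0 : (e0 : R E).1.length = 0 := rfl
  rw [he0] at hla hlb
  obtain ⟨r1, r2⟩ := commuting (a := (P wa e0).1) (b := (P wb e0).1) (P wa e0).2 (P wb e0).2 hcr
    (by
      intro h
      rw [List.getLast_eq_getElem, List.head_eq_getElem, word_get, word_get]
      have := (hg (n - 1)).2.1
      rw [show n - 1 + 1 = 0 + n by omega, hx 0] at this
      rw [hca]
      exact this)
    (by rw [P_red, P_red, e1]) (by rw [P_red, P_red, e2]) (by omega) (by omega)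
  set a := (P wa e0).1 with ha
  set b := (P wb e0).1 with hb
  have hlen : a.length + b.length = n := by
    rw [← hca, r1, List.length_append]
  -- the word `cw` is invariant under the rotation by the length of `a`
  have hrot : cw.rotate a.length = cw := by
    conv_lhs => rw [r1]
    rw [List.rotate_append_length_eq, ← r2]
  have hxs : ∀ i, (g (i + a.length)).1 = (g i).1 := by
    have key : ∀ k, k < n → (g (k + a.length)).1 = (g k).1 := by
      intro k hk
      have hk' : k < cw.length := by omega
      have h1 : (cw.rotate a.length)[k]'(by rw [List.length_rotate]; exact hk') = cw[k] := by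
        congr 1
      rw [List.getElem_rotate, word_get, word_get] at h1
      have h2 := periodic_mod (u := fun i => (g i).1) hx (k + a.length)
      rw [hca] at h1
      rw [← h2, h1]
    intro i
    have h1 := key (i % n) (Nat.mod_lt _ hn0)
    have h2 := periodic_mod (u := fun i => (g i).1) hx i
    have h3 := periodic_mod (u := fun i => (g i).1) hx (i % n + a.length)
    have h4 := periodic_mod (u := fun i => (g i).1) hx (i + a.length)
    rw [Nat.mod_add_mod] at h3
    rw [← h4, h3, h1, h2]
  have hpar : a.length % 2 = 0 := by omega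
  have hst : ∀ i, g (i + a.length) = g i := by
    intro i
    apply Prod.ext (hxs i)
    rw [bool_parity hg, bool_parity hg i]
    rcases Nat.mod_two_eq_zero_or_one i with h | h
    · rw [if_pos h, if_pos (by omega)]
    · rw [if_neg (by omega), if_neg (by omega)]
  rcases Nat.eq_zero_or_pos a.length with h0 | h0
  · right
    have ha0 : a = [] := List.eq_nil_of_length_eq_zero h0
    have hbl : b.length = wb.length := by omega
    have hbw : b = wb := P_full hbl
    rw [ha0, List.nil_append, hbw] at r1
    have key : ∀ k, k < n → f (g 0).1 (g k).1 = (g k).1 := by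
      intro k hk
      have h1 : cw[k]'(by omega) = wb[k]'(by omega) := by
        congr 1
      rw [word_get, word_get] at h1
      exact h1.symm
    intro i
    have h2 := periodic_mod (u := fun i => (g i).1) hx i
    rw [← h2]
    exact key _ (Nat.mod_lt _ hn0)
  · left
    have h1 := hmin _ h0 hst
    have hal : a.length = wa.length := by omega
    have hb0 : b = [] := List.eq_nil_of_length_eq_zero (by omega)
    have haw : a = wa := P_full hal
    rw [hb0, List.append_nil, haw] at r1
    have key : ∀ k, k < n → f (g k).1 (g 0).1 = (g k).1 := by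
      intro k hk
      have h1 : cw[k]'(by omega) = wa[k]'(by omega) := by
        congr 1
      rw [word_get, word_get] at h1
      exact h1.symm
    intro i
    have h2 := periodic_mod (u := fun i => (g i).1) hx i
    rw [← h2]
    exact key _ (Nat.mod_lt _ hn0)

/-- **On a periodic reduced walk the map is one of the two projections.** -/
theorem line (hρ : NoRect ρ) (hf : ∀ b x x' y y', ρ b x x' → ρ b y y' → ρ b (f x y) (f x' y'))
    (hid : ∀ x, f x x = x) (hg : ∀ i, Step ρ (g i) (g (i + 1)))
    (hper : ∃ n, 0 < n ∧ ∀ i, g (i + n) = g i) :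
    (∀ i j, f (g i).1 (g j).1 = (g i).1) ∨ (∀ i j, f (g i).1 (g j).1 = (g j).1) := by
  classical
  obtain ⟨hn0, hn⟩ := Nat.find_spec hper
  have hmin : ∀ s, 0 < s → (∀ i, g (i + s) = g i) → Nat.find hper ≤ s :=
    fun s h1 h2 => Nat.find_min' hper ⟨h1, h2⟩
  set n := Nat.find hper with hndef
  have key : ∀ k, (∀ i, f (g i).1 (g k).1 = (g i).1) ∨ (∀ i, f (g k).1 (g i).1 = (g i).1) := by
    intro k
    have back : ∀ i, ∃ j, g (j + k) = g i := by
      intro i
      refine ⟨i + n * k - k, ?_⟩
      have : k ≤ n * k := Nat.le_mul_of_pos_left k hn0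
      rw [show i + n * k - k + k = i + n * k by omega, periodic_mul hn]
    have h := base (g := fun i => g (i + k)) hρ hf hid (fun i => by
        have := hg (i + k)
        rwa [show i + k + 1 = i + 1 + k by omega] at this) hn0
      (fun i => by
        show g (i + n + k) = g (i + k)
        rw [show i + n + k = i + k + n by omega, hn])
      (fun s hs h => by
        apply hmin s hs
        intro i
        have h1 := h (i + n * k - k)
        have : k ≤ n * k := Nat.le_mul_of_pos_left k hn0
        beta_reduce at h1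
        rw [show i + n * k - k + s + k = i + s + n * k by omega,
          show i + n * k - k + k = i + n * k by omega, periodic_mul hn, periodic_mul hn] at h1
        exact h1)
    simp only [Nat.zero_add] at h
    rcases h with h | h
    · left
      intro i
      obtain ⟨j, hj⟩ := back i
      have := h j
      rwa [hj] at this
    · right
      intro i
      obtain ⟨j, hj⟩ := back i
      have := h j
      rwa [hj] at this
  by_cases hA : ∀ k i, f (g i).1 (g k).1 = (g i).1
  · left
    exact fun i j => hA j i
  · by_cases hB : ∀ k i, f (g k).1 (g i).1 = (g i).1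
    · right
      exact fun i j => hB i j
    · exfalso
      push Not at hA hB
      obtain ⟨l, i, hl⟩ := hA
      obtain ⟨k, j, hk⟩ := hB
      have hBl : ∀ i, f (g l).1 (g i).1 = (g i).1 := by
        rcases key l with h | h
        · exact absurd (h i) hl
        · exact h
      have hAk : ∀ i, f (g i).1 (g k).1 = (g i).1 := by
        rcases key k with h | h
        · exact h
        · exact absurd (h j) hk
      have e : (g l).1 = (g k).1 := by
        rw [← hAk l, hBl k]
      apply hl
      rw [e]
      exact hAk i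

end Line

end Y280.RF
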