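import Pool.Agent.Y280.RF.Line

/-! # Recurrence of reduced walks, and the classification -/

namespace Y280.RF

variable {E : Type*}

/-- a class-preserving permutation without fixed points -/
lemma exists_cyc [Finite E] (r : Setoid E) (h : ∀ x, ∃ y, y ≠ x ∧ r x y) :
    ∃ τ : Equiv.Perm E, ∀ x, r x (τ x) ∧ τ x ≠ x := by
  classical
  have _ := Fintype.ofFinite E
  have hq : ∀ q : Quotient r, ∃ p : Equiv.Perm E,
      p.IsCycleOn ((Finset.univ.filter (fun x : E => (⟦x⟧ : Quotient r) = q) : Finset E) : Set E) :=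
    fun q => (Finset.exists_cycleOn _).imp fun p hp => hp.1
  choose p hp using hq
  have hmem : ∀ x y : E, p ⟦x⟧ x = y → r x y := by
    intro x y hxy
    have h1 := (hp ⟦x⟧).apply_mem_iff (x := x)
    have h2 : x ∈ ((Finset.univ.filter (fun z : E => (⟦z⟧ : Quotient r) = ⟦x⟧) : Finset E) : Set E) := by
      simp
    have h3 := h1.2 h2
    rw [hxy] at h3
    simp only [Finset.coe_filter, Finset.mem_univ, true_and, Set.mem_setOf_eq] at h3
    exact r.symm (Quotient.exact h3)
  have hinj : Function.Injective (fun x : E => p ⟦x⟧ x) := by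
    intro x y hxy
    have h1 := hmem x _ rfl
    have h2 := hmem y _ rfl
    have hxy' : p ⟦x⟧ x = p ⟦y⟧ y := hxy
    have h3 : (⟦x⟧ : Quotient r) = ⟦y⟧ := by
      apply Quotient.sound
      rw [← hxy'] at h2
      exact r.trans h1 (r.symm h2)
    rw [h3] at hxy'
    exact (p ⟦y⟧).injective hxy'
  refine ⟨Equiv.ofBijective _ (Finite.injective_iff_bijective.1 hinj), fun x => ⟨hmem x _ rfl, ?_⟩⟩
  show p ⟦x⟧ x ≠ x
  apply (hp ⟦x⟧).apply_ne
  · obtain ⟨y, hy, hxy⟩ := h x
    refine ⟨x, by simp, y, ?_, hy.symm⟩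
    simp only [Finset.coe_filter, Finset.mem_univ, true_and, Set.mem_setOf_eq]
    exact Quotient.sound (r.symm hxy)
  · simp

/-- reachability by reduced walks -/
def Reach (ρ : Bool → Setoid E) : E × Bool → E × Bool → Prop := Relation.ReflTransGen (Step ρ)

section

variable [Finite E] {ρ : Bool → Setoid E}

lemma step_back (hs : ∀ b x, ∃ y, y ≠ x ∧ ρ b x y) {s t : E × Bool} (h : Step ρ s t) :
    Reach ρ t s := by
  classical
  choose τ hτ using fun b => exists_cyc (ρ b) (hs b)
  -- the permutation of the states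
  let π : E × Bool → E × Bool := fun u => (τ u.2 u.1, !u.2)
  have hπinj : Function.Injective π := by
    rintro ⟨x, b⟩ ⟨y, c⟩ hxy
    have h1 : (!b) = !c := congrArg Prod.snd hxy
    have h2 : b = c := by simpa using h1
    subst h2
    have h3 : τ b x = τ b y := congrArg Prod.fst hxy
    rw [(τ b).injective h3]
  let Q : Equiv.Perm (E × Bool) := Equiv.ofBijective π (Finite.injective_iff_bijective.1 hπinj)
  have hQ : ∀ u, Q u = π u := fun u => rfl
  have hst : ∀ u, Step ρ u (Q u) := fun u => ⟨rfl, (hτ u.2 u.1).2.symm, (hτ u.2 u.1).1⟩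
  have hpow : ∀ (k : ℕ) u, Reach ρ u ((Q ^ k) u) := by
    intro k
    induction k with
    | zero => intro u; exact Relation.ReflTransGen.refl
    | succ k ih =>
      intro u
      rw [pow_succ', Equiv.Perm.mul_apply]
      exact Relation.ReflTransGen.tail (ih u) (hst _)
  have hback : ∀ u, Reach ρ (Q u) u := by
    intro u
    have h1 := hpow (orderOf Q - 1) (Q u)
    rw [← Equiv.Perm.mul_apply, ← pow_succ, Nat.sub_add_cancel (orderOf_pos Q), pow_orderOf_eq_one]
      at h1
    exact h1
  obtain ⟨x, b⟩ := s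
  obtain ⟨y, c⟩ := t
  obtain ⟨h1, h2, h3⟩ := h
  simp only at h1 h2 h3
  subst h1
  -- `back1 v : (τ b v, !b) ⇝ (v, b)`
  have back1 : ∀ v, Reach ρ (τ b v, !b) (v, b) := fun v => hback (v, b)
  obtain ⟨u, hu⟩ := (τ b).surjective y
  by_cases hyx : y = τ b x
  · rw [hyx]
    exact back1 x
  · have hux : u ≠ x := by
      rintro rfl
      exact hyx hu.symm
    have hyu : ρ b u y := by
      have := (hτ b u).1
      rwa [hu] at this
    have hxu : ρ b u x := (ρ b).trans hyu ((ρ b).symm h3)
    have r1 : Reach ρ (y, !b) (u, b) := by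
      rw [← hu]
      exact back1 u
    by_cases hxu' : τ b x = u
    · -- detour through `x`
      have r2 : Reach ρ (u, b) (x, !b) := Relation.ReflTransGen.single ⟨rfl, hux, hxu⟩
      obtain ⟨v, hv⟩ := (τ b).surjective x
      have r3 : Reach ρ (x, !b) (v, b) := by
        rw [← hv]
        exact back1 v
      have hvu : v ≠ u := by
        rintro rfl
        exact h2 (hv.symm.trans hu)
      have hvx : ρ b v x := by
        have := (hτ b v).1
        rwa [hv] at this
      have r4 : Reach ρ (v, b) (u, !b) :=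
        Relation.ReflTransGen.single ⟨rfl, hvu, (ρ b).trans hvx ((ρ b).symm hxu)⟩
      have r5 : Reach ρ (u, !b) (x, b) := by
        rw [← hxu']
        exact back1 x
      exact ((((r1.trans r2).trans r3).trans r4).trans r5)
    · have r2 : Reach ρ (u, b) (τ b x, !b) :=
        Relation.ReflTransGen.single ⟨rfl, fun h => hxu' h.symm, (ρ b).trans hxu (hτ b x).1⟩
      exact ((r1.trans r2).trans (back1 x))

lemma reach_symm (hs : ∀ b x, ∃ y, y ≠ x ∧ ρ b x y) {s t : E × Bool} (h : Reach ρ s t) :
    Reach ρ t s := by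
  induction h with
  | refl => exact Relation.ReflTransGen.refl
  | tail _ h2 ih => exact (step_back hs h2).trans ih

omit [Finite E] in
lemma exists_path {s t : E × Bool} (h : Reach ρ s t) :
    ∃ (n : ℕ) (g : ℕ → E × Bool), g 0 = s ∧ g n = t ∧ ∀ i < n, Step ρ (g i) (g (i + 1)) := by
  induction h with
  | refl => exact ⟨0, fun _ => s, rfl, rfl, fun i hi => absurd hi (by omega)⟩
  | @tail b c _ h2 ih =>
    obtain ⟨n, g, g0, gn, hg⟩ := ih
    refine ⟨n + 1, fun i => if i ≤ n then g i else c, by simp [g0], by simp, ?_⟩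
    intro i hi
    by_cases h : i < n
    · simp only [show i ≤ n by omega, show i + 1 ≤ n by omega, if_true]
      exact hg i h
    · have : i = n := by omega
      subst this
      simp only [le_refl, if_true, show ¬ (i + 1 ≤ i) by omega, if_false, gn]
      exact h2

/-- every reduced walk lies on a periodic reduced walk -/
lemma exists_line (hs : ∀ b x, ∃ y, y ≠ x ∧ ρ b x y) {s t u : E × Bool} (h1 : Step ρ s t)
    (h2 : Reach ρ t u) :
    ∃ g : ℕ → E × Bool, (∀ i, Step ρ (g i) (g (i + 1))) ∧ (∃ n, 0 < n ∧ ∀ i, g (i + n) = g i) ∧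
      g 0 = s ∧ g 1 = t ∧ ∃ k, g k = u := by
  obtain ⟨n1, p, p0, pn, hp⟩ := exists_path h2
  obtain ⟨n2, q, q0, qn, hq⟩ := exists_path (reach_symm hs (Relation.ReflTransGen.head h1 h2))
  -- the closed walk: `s`, then `p`, then `q`
  let w : ℕ → E × Bool := fun i => if i = 0 then s else if i ≤ n1 + 1 then p (i - 1) else q (i - (n1 + 1))
  have w0 : w 0 = s := by simp [w]
  have w1 : w 1 = t := by simp [w, p0]
  have wk : w (n1 + 1) = u := by simp [w, pn]
  have wn : w (n1 + 1 + n2) = s := by
    by_cases hn2 : n2 = 0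
    · subst hn2
      rw [Nat.add_zero, wk, ← qn, q0]
    · simp only [w]
      rw [if_neg (by omega), if_neg (by omega), Nat.add_sub_cancel_left, qn]
  have hw : ∀ i < n1 + 1 + n2, Step ρ (w i) (w (i + 1)) := by
    intro i hi
    by_cases hi0 : i = 0
    · subst hi0
      rw [w0, w1]
      exact h1
    · by_cases hi1 : i < n1 + 1
      · have e1 : w i = p (i - 1) := by
          simp only [w]
          rw [if_neg hi0, if_pos (by omega)]
        have e2 : w (i + 1) = p (i - 1 + 1) := by
          simp only [w]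
          rw [if_neg (by omega), if_pos (by omega), show i + 1 - 1 = i - 1 + 1 by omega]
        rw [e1, e2]
        exact hp _ (by omega)
      · have e1 : w i = q (i - (n1 + 1)) := by
          by_cases hi2 : i = n1 + 1
          · rw [hi2, wk, Nat.sub_self, q0]
          · simp only [w]
            rw [if_neg hi0, if_neg (by omega)]
        have e2 : w (i + 1) = q (i - (n1 + 1) + 1) := by
          simp only [w]
          rw [if_neg (by omega), if_neg (by omega),
            show i + 1 - (n1 + 1) = i - (n1 + 1) + 1 by omega]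
        rw [e1, e2]
        exact hq _ (by omega)
  have hN : 0 < n1 + 1 + n2 := by omega
  set N := n1 + 1 + n2 with hNdef
  refine ⟨fun i => w (i % N), ?_, ⟨N, hN, fun i => by simp⟩, by simp [w0], ?_, n1 + 1, ?_⟩
  · intro i
    have hi := Nat.mod_lt i hN
    have h := hw (i % N) hi
    have em : (i + 1) % N = (i % N + 1) % N := by rw [Nat.mod_add_mod]
    by_cases hl : i % N + 1 = N
    · have e : (i + 1) % N = 0 := by
        rw [em, hl, Nat.mod_self]
      show Step ρ (w (i % N)) (w ((i + 1) % N))
      rw [e, w0]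
      rw [hl, wn] at h
      exact h
    · have e : (i + 1) % N = i % N + 1 := by
        rw [em, Nat.mod_eq_of_lt (by omega)]
      show Step ρ (w (i % N)) (w ((i + 1) % N))
      rw [e]
      exact h
  · show w (1 % N) = t
    by_cases hN1 : N = 1
    · exfalso
      have : n1 = 0 := by omega
      have h2' : n2 = 0 := by omega
      subst this h2'
      have hst : t = s := by rw [← p0, pn, ← q0, qn]
      rw [hst] at h1
      exact h1.2.1 rfl
    · rw [Nat.mod_eq_of_lt (by omega), w1]
  · show w ((n1 + 1) % N) = u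
    by_cases hn2 : n2 = 0
    · have : N = n1 + 1 := by omega
      rw [← this, Nat.mod_self, w0, ← qn, ← q0, hn2]
    · rw [Nat.mod_eq_of_lt (by omega), wk]

end

end Y280.RF
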