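import Mathlib

/-! # Reduced words in involutions, and walks in a grid -/

namespace Y280.RF

open List

section Words

variable {E : Type*} [DecidableEq E]

/-- no two consecutive letters are equal -/
def Rd (l : List E) : Prop := l.IsChain (· ≠ ·)

/-- multiply a word on the left by a letter (an involution) -/
def T (e : E) : List E → List E
  | [] => [e]
  | a :: l => if a = e then l else e :: a :: l

lemma T_cons (e a : E) (l : List E) : T e (a :: l) = if a = e then l else e :: a :: l := rfl

lemma Rd.tail {a : E} {l : List E} (h : Rd (a :: l)) : Rd l := by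
  unfold Rd at *
  cases l with
  | nil => simp
  | cons b l => exact (List.isChain_cons_cons.1 h).2

lemma T_rd (e : E) {l : List E} (h : Rd l) : Rd (T e l) := by
  cases l with
  | nil => simp [T, Rd]
  | cons a l =>
    rw [T_cons]
    split_ifs with hae
    · exact h.tail
    · exact List.isChain_cons_cons.2 ⟨fun h' => hae h'.symm, h⟩

lemma T_T (e : E) {l : List E} (h : Rd l) : T e (T e l) = l := by
  cases l with
  | nil => simp [T]
  | cons a l =>
    by_cases hae : a = e
    · subst hae
      cases l with
      | nil => simp [T]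
      | cons b l =>
        have := (List.isChain_cons_cons.1 h).1
        simp [T, this.symm]
    · simp [T, hae]

/-- the reduced words -/
abbrev R (E : Type*) := {l : List E // Rd l}

/-- the letter `e` acting on the reduced words -/
def σ (e : E) : Equiv.Perm (R E) :=
  Function.Involutive.toPerm (fun l => (⟨T e l.1, T_rd e l.2⟩ : R E))
    (fun l => Subtype.ext (T_T e l.2))

lemma σ_apply (e : E) (l : R E) : ((σ e) l).1 = T e l.1 := rfl

lemma σ_sq (e : E) : σ e * σ e = 1 := by
  ext1 l
  exact Subtype.ext (T_T e l.2)

/-- a word acting on the reduced words -/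
def P (w : List E) : Equiv.Perm (R E) := (w.map σ).prod

@[simp] lemma P_nil : P ([] : List E) = 1 := rfl

lemma P_cons (e : E) (w : List E) : P (e :: w) = σ e * P w := by simp [P]

lemma P_append (w w' : List E) : P (w ++ w') = P w * P w' := by simp [P]

lemma P_T (e : E) (l : List E) : P (T e l) = σ e * P l := by
  cases l with
  | nil => simp [T, P]
  | cons a l =>
    rw [T_cons]
    split_ifs with hae
    · subst hae
      rw [P_cons, ← mul_assoc, σ_sq, one_mul]
    · rw [P_cons]

/-- the empty word -/
def e0 : R E := ⟨[], by simp [Rd]⟩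

lemma P_red (w : List E) : P (P w e0).1 = P w := by
  induction w with
  | nil => simp [e0]
  | cons e w ih =>
    rw [P_cons, Equiv.Perm.mul_apply, σ_apply, P_T, ih]

lemma P_of_rd {l : List E} (h : Rd l) : (P l e0).1 = l := by
  induction l with
  | nil => simp [e0]
  | cons e l ih =>
    rw [P_cons, Equiv.Perm.mul_apply, σ_apply, ih h.tail]
    cases l with
    | nil => simp [T]
    | cons a l =>
      have := (List.isChain_cons_cons.1 h).1
      simp [T, this.symm]

lemma T_length (e : E) (l : List E) :
    (T e l).length ≤ l.length + 1 ∧ (T e l).length % 2 = (l.length + 1) % 2 := by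
  cases l with
  | nil => simp [T]
  | cons a l =>
    rw [T_cons]
    split_ifs <;> simp <;> omega

lemma P_length (w : List E) (r : R E) :
    ((P w) r).1.length ≤ w.length + r.1.length ∧
      ((P w) r).1.length % 2 = (w.length + r.1.length) % 2 := by
  induction w with
  | nil => simp
  | cons e w ih =>
    rw [P_cons, Equiv.Perm.mul_apply, σ_apply]
    have := T_length e (P w r).1
    simp only [List.length_cons]
    omega

lemma P_full {w : List E} (h : (P w e0).1.length = w.length) : (P w e0).1 = w := by
  induction w with
  | nil => simp [e0]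
  | cons e w ih =>
    rw [P_cons, Equiv.Perm.mul_apply, σ_apply] at h ⊢
    have h1 := P_length w e0
    have h2 := T_length e (P w e0).1
    simp only [List.length_cons] at h
    simp only [e0, List.length_nil, add_zero] at h1
    have h3 : (P w e0).1.length = w.length := by
      unfold e0 at h h2 ⊢
      omega
    rw [ih h3]
    rw [ih h3] at h
    cases w with
    | nil => simp [T]
    | cons a l =>
      by_cases hae : a = e
      · exfalso
        rw [T_cons, if_pos hae] at h
        simp only [List.length_cons] at h
        omega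
      · rw [T_cons, if_neg hae]

lemma P_mul_rd {a b : List E} (ha : Rd a) (hb : Rd b) :
    ∃ a' z b', a = a' ++ z ∧ b = z.reverse ++ b' ∧ ((P a) ⟨b, hb⟩).1 = a' ++ b' := by
  induction a with
  | nil => exact ⟨[], [], b, by simp, by simp, by simp⟩
  | cons e a ih =>
    obtain ⟨a', z, b', h1, h2, h3⟩ := ih ha.tail
    rw [P_cons, Equiv.Perm.mul_apply, σ_apply, h3]
    cases a' with
    | cons x a' =>
      refine ⟨e :: x :: a', z, b', by simp [h1], h2, ?_⟩
      have hx : e ≠ x := by
        rw [h1] at ha
        exact (List.isChain_cons_cons.1 ha).1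
      simp [T, hx.symm]
    | nil =>
      simp only [List.nil_append] at h1 ⊢
      cases b' with
      | nil => exact ⟨[e], z, [], by simp [h1], h2, by simp [T]⟩
      | cons y b' =>
        by_cases hy : y = e
        · subst hy
          exact ⟨[], y :: z, b', by simp [h1], by simp [h2], by simp [T]⟩
        · exact ⟨[e], z, y :: b', by simp [h1], h2, by simp [T, hy]⟩

/-- two commuting factors, both not longer than their cyclically reduced product, factor it without
cancellation -/
lemma commuting {a b c : List E} (ha : Rd a) (hb : Rd b) (hc : Rd c)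
    (hcyc : ∀ h : c ≠ [], c.getLast h ≠ c.head h)
    (h1 : P a * P b = P c) (h2 : P b * P a = P c) (la : a.length ≤ c.length)
    (lb : b.length ≤ c.length) : c = a ++ b ∧ c = b ++ a := by
  obtain ⟨a', z, b', e1, e2, e3⟩ := P_mul_rd ha hb
  obtain ⟨b1, w, a1, f1, f2, f3⟩ := P_mul_rd hb ha
  have g1 : c = a' ++ b' := by
    rw [← e3, ← P_of_rd hc, ← h1, Equiv.Perm.mul_apply]
    congr 2
    exact Subtype.ext (P_of_rd hb)
  have g2 : c = b1 ++ a1 := by
    rw [← f3, ← P_of_rd hc, ← h2, Equiv.Perm.mul_apply]
    congr 2
    exact Subtype.ext (P_of_rd ha)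
  have l1 := congrArg List.length e1
  have l2 := congrArg List.length e2
  have l3 := congrArg List.length g1
  have k1 := congrArg List.length f1
  have k2 := congrArg List.length f2
  have k3 := congrArg List.length g2
  simp only [List.length_append, List.length_reverse] at l1 l2 l3 k1 k2 k3
  by_cases hz : z = []
  · have hw : w = [] := by
      apply List.eq_nil_of_length_eq_zero
      have : z.length = 0 := by simp [hz]
      omega
    subst hz hw
    simp only [List.append_nil, List.reverse_nil, List.nil_append] at e1 e2 f1 f2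
    subst e1 e2 f1 f2
    exact ⟨g1, g2⟩
  · exfalso
    have hz' : 0 < z.length := List.length_pos_iff.2 hz
    have hwl : w.length = z.length := by omega
    have hw : w ≠ [] := List.length_pos_iff.1 (by omega)
    have ha' : a' ≠ [] := List.length_pos_iff.1 (by omega)
    have hb' : b' ≠ [] := List.length_pos_iff.1 (by omega)
    have hcne : c ≠ [] := by
      rw [g1]
      simp [ha']
    apply hcyc hcne
    -- the first letter of `c` is the first letter of `a`, which is the last letter of `b`
    have q1 : c.head hcne = a'.head ha' := by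
      subst g1
      exact List.head_append_of_ne_nil ha'
    have hane : a ≠ [] := by rw [e1]; simp [ha']
    have hbne : b ≠ [] := by rw [e2]; simp [hb']
    have q2 : a.head hane = a'.head ha' := by
      subst e1
      exact List.head_append_of_ne_nil ha'
    have hwr : w.reverse ≠ [] := by simpa using hw
    have q3 : a.head hane = w.reverse.head hwr := by
      have : ∀ (l : List E) (hl : l ≠ []) (_ : l = w.reverse ++ a1), l.head hl = w.reverse.head hwr := by
        intro l hl h
        subst h
        exact List.head_append_of_ne_nil hwr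
      exact this a hane f2
    have q4 : w.reverse.head hwr = w.getLast hw := by
      rw [List.head_reverse]
    have q5 : b.getLast hbne = w.getLast hw := by
      have : ∀ (l : List E) (hl : l ≠ []) (_ : l = b1 ++ w), l.getLast hl = w.getLast hw := by
        intro l hl h
        subst h
        exact List.getLast_append_of_ne_nil _ hw
      exact this b hbne f1
    have q6 : b.getLast hbne = b'.getLast hb' := by
      have : ∀ (l : List E) (hl : l ≠ []) (_ : l = z.reverse ++ b'), l.getLast hl = b'.getLast hb' := by
        intro l hl h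
        subst h
        exact List.getLast_append_of_ne_nil _ hb'
      exact this b hbne e2
    have q7 : c.getLast hcne = b'.getLast hb' := by
      have : ∀ (l : List E) (hl : l ≠ []) (_ : l = a' ++ b'), l.getLast hl = b'.getLast hb' := by
        intro l hl h
        subst h
        exact List.getLast_append_of_ne_nil _ hb'
      exact this c hcne g1
    rw [q7, ← q6, q5, ← q4, ← q3, q2, q1]

end Words

section Grid

variable {G : Type*} [Group G]

/-- product of the first `k` values -/
def pr (u : ℕ → G) : ℕ → G
  | 0 => 1
  | k + 1 => pr u k * u k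

variable {h : ℕ → ℕ → G}

lemma col_even (hc : ∀ i j, (i + j) % 2 = 1 → h i j * h i (j + 1) = h (i + 1) j * h (i + 1) (j + 1))
    {i : ℕ} (hi : i % 2 = 1) (m : ℕ) : pr (h i) (2 * m) = pr (h (i + 1)) (2 * m) := by
  induction m with
  | zero => rfl
  | succ m ih =>
    show pr (h i) (2 * m) * h i (2 * m) * h i (2 * m + 1) =
      pr (h (i + 1)) (2 * m) * h (i + 1) (2 * m) * h (i + 1) (2 * m + 1)
    rw [mul_assoc, mul_assoc, ih, hc i (2 * m) (by omega)]

lemma col_odd (h2 : ∀ i j, h i j * h i j = 1)
    (hc : ∀ i j, (i + j) % 2 = 1 → h i j * h i (j + 1) = h (i + 1) j * h (i + 1) (j + 1))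
    {i : ℕ} (hi : i % 2 = 0) (m : ℕ) :
    h i 0 * pr (h i) (2 * m + 1) = h (i + 1) 0 * pr (h (i + 1)) (2 * m + 1) := by
  induction m with
  | zero => simp [pr, h2]
  | succ m ih =>
    show h i 0 * (pr (h i) (2 * m + 1) * h i (2 * m + 1) * h i (2 * m + 1 + 1)) =
      h (i + 1) 0 * (pr (h (i + 1)) (2 * m + 1) * h (i + 1) (2 * m + 1) * h (i + 1) (2 * m + 1 + 1))
    rw [mul_assoc (pr (h i) (2 * m + 1)), mul_assoc (pr (h (i + 1)) (2 * m + 1)), ← mul_assoc, ih,
      hc i (2 * m + 1) (by omega), mul_assoc]

lemma diag_eq (h2 : ∀ i j, h i j * h i j = 1)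
    (hc : ∀ i j, (i + j) % 2 = 1 → h i j * h i (j + 1) = h (i + 1) j * h (i + 1) (j + 1)) (m : ℕ) :
    pr (fun i => h i i) (2 * m) = pr (fun i => h i 0) (2 * m) * pr (h (2 * m)) (2 * m) := by
  induction m with
  | zero => simp [pr]
  | succ m ih =>
    have s1 : pr (fun i => h i i) (2 * m + 1) =
        pr (fun i => h i 0) (2 * m) * pr (h (2 * m)) (2 * m + 1) := by
      show pr (fun i => h i i) (2 * m) * h (2 * m) (2 * m) =
        pr (fun i => h i 0) (2 * m) * (pr (h (2 * m)) (2 * m) * h (2 * m) (2 * m))
      rw [ih, mul_assoc]
    have s2 : pr (h (2 * m)) (2 * m + 1) =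
        h (2 * m) 0 * (h (2 * m + 1) 0 * pr (h (2 * m + 1)) (2 * m + 1)) := by
      rw [← col_odd h2 hc (by omega) m, ← mul_assoc, h2, one_mul]
    have s3 : pr (h (2 * m + 1)) (2 * m + 1 + 1) = pr (h (2 * m + 2)) (2 * m + 2) :=
      col_even hc (i := 2 * m + 1) (by omega) (m + 1)
    show pr (fun i => h i i) (2 * m + 1) * h (2 * m + 1) (2 * m + 1) =
      pr (fun i => h i 0) (2 * m) * h (2 * m) 0 * h (2 * m + 1) 0 * pr (h (2 * m + 2)) (2 * m + 2)
    rw [← s3, s1, s2]
    show _ = pr (fun i => h i 0) (2 * m) * h (2 * m) 0 * h (2 * m + 1) 0 *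
      (pr (h (2 * m + 1)) (2 * m + 1) * h (2 * m + 1) (2 * m + 1))
    simp only [mul_assoc]

end Grid

end Y280.RF
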